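import Pool.Agent.H197R3.SF.Stmts

set_option autoImplicit false

/-! Closure properties of the matrix classes (project H197-SF, TaskMat). -/

namespace Pool.Agent.H170.SFMat

open MeasureTheory Filter Topology Set Pool.Agent.H197R3.SF
open scoped Pointwise Matrix ComplexConjugate

lemma ch_norm (ω t : ℝ) : ‖ch ω t‖ = 1 := by
  unfold ch
  rw [Complex.norm_exp]
  simp

lemma ch_cont (ω : ℝ) : Continuous (ch ω) := by
  unfold ch
  fun_prop

lemma wt_cont (σ : ℝ) : Continuous (wt σ) := by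
  unfold wt
  fun_prop

lemma wt_norm (σ t : ℝ) : ‖wt σ t‖ = Real.exp (σ * |t|) := by
  unfold wt
  rw [Complex.norm_real, Real.norm_eq_abs, abs_of_pos (Real.exp_pos _)]

lemma wt_mul (σ σ' t : ℝ) : wt σ t * wt (σ' - σ) t = wt σ' t := by
  unfold wt
  rw [← Complex.ofReal_mul, ← Real.exp_add]
  congr 2
  ring

lemma wt_zero (t : ℝ) : wt 0 t = 1 := by
  unfold wt
  simp

lemma wt_neg (σ t : ℝ) : wt σ (-t) = wt σ t := by
  unfold wt
  rw [abs_neg]

lemma wt_conj (σ t : ℝ) : conj (wt σ t) = wt σ t := by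
  unfold wt
  rw [Complex.conj_ofReal]

lemma ch_conj (ω t : ℝ) : conj (ch ω t) = ch ω (-t) := by
  unfold ch
  rw [← Complex.exp_conj]
  congr 1
  simp

lemma intg_mono {σ σ' : ℝ} (h : σ' ≤ σ) {f : ℝ → ℂ} (hf : Integrable (fun t => f t * wt σ t)) :
    Integrable (fun t => f t * wt σ' t) := by
  have h1 := hf.mul_bdd (c := 1) (g := wt (σ' - σ)) (wt_cont _).aestronglyMeasurable
    (Eventually.of_forall fun t => by
      rw [wt_norm, Real.exp_le_one_iff]
      exact mul_nonpos_of_nonpos_of_nonneg (by linarith) (abs_nonneg t))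
  refine h1.congr (Eventually.of_forall fun t => ?_)
  simp only
  rw [mul_assoc, wt_mul]

lemma intg_ch {σ : ℝ} (hσ : 0 ≤ σ) {f : ℝ → ℂ} (hf : Integrable (fun t => f t * wt σ t)) (ω : ℝ) :
    Integrable (fun t => f t * ch ω t) := by
  have h0 := intg_mono hσ hf
  simp only [wt_zero, mul_one] at h0
  exact h0.mul_bdd (c := 1) (ch_cont ω).aestronglyMeasurable
    (Eventually.of_forall fun t => (ch_norm ω t).le)

lemma summ_mono {σ σ' : ℝ} (h : σ' ≤ σ) {c : ℝ → ℂ}
    (hc : Summable (fun t : ℝ => ‖c t‖ * Real.exp (σ * |t|))) :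
    Summable (fun t : ℝ => ‖c t‖ * Real.exp (σ' * |t|)) := by
  refine Summable.of_nonneg_of_le (fun t => by positivity) (fun t => ?_) hc
  gcongr

lemma summ_ch {σ : ℝ} (hσ : 0 ≤ σ) {c : ℝ → ℂ}
    (hc : Summable (fun t : ℝ => ‖c t‖ * Real.exp (σ * |t|))) (ω : ℝ) :
    Summable (fun t : ℝ => c t * ch ω t) := by
  have h0 := summ_mono hσ hc
  simp only [zero_mul, Real.exp_zero, mul_one] at h0
  refine Summable.of_norm ?_
  refine h0.congr fun t => ?_
  rw [norm_mul, ch_norm, mul_one]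

lemma W_zero (σ : ℝ) (E K : Set ℝ) : W σ E K (fun _ => 0) := by
  refine ⟨fun _ => 0, fun _ => 0, ?_, ?_, ?_, ?_, ?_⟩
  · simp
  · simp
  · intro t _; rfl
  · intro t _; rfl
  · intro ω; simp

lemma W_add {σ : ℝ} (hσ : 0 < σ) {E K : Set ℝ} {F G : ℝ → ℂ} (hF : W σ E K F) (hG : W σ E K G) :
    W σ E K (fun ω => F ω + G ω) := by
  obtain ⟨f, c, h1⟩ := hF
  obtain ⟨g, d, h2⟩ := hG
  refine ⟨fun t => f t + g t, fun t => c t + d t, ?_, ?_, ?_, ?_, ?_⟩
  · simp only [add_mul]
    exact h1.intg.add h2.intg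
  · refine Summable.of_nonneg_of_le (fun t => by positivity) (fun t => ?_) (h1.summ.add h2.summ)
    rw [← add_mul]
    gcongr
    exact norm_add_le _ _
  · intro t ht
    rw [h1.fE t ht, h2.fE t ht, add_zero]
  · intro t ht
    rw [h1.cK t ht, h2.cK t ht, add_zero]
  · intro ω
    simp only [add_mul]
    rw [h1.eq, h2.eq, integral_add (intg_ch hσ.le h1.intg ω) (intg_ch hσ.le h2.intg ω),
      (summ_ch hσ.le h1.summ ω).tsum_add (summ_ch hσ.le h2.summ ω)]
    ring

lemma W_sum {ι : Type*} {σ : ℝ} (hσ : 0 < σ) {E K : Set ℝ} (s : Finset ι) (F : ι → ℝ → ℂ)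
    (hF : ∀ i ∈ s, W σ E K (F i)) : W σ E K (fun ω => ∑ i ∈ s, F i ω) := by
  classical
  induction s using Finset.induction_on with
  | empty => simpa using W_zero σ E K
  | insert a s ha ih =>
    simp only [Finset.sum_insert ha]
    exact W_add hσ (hF a (Finset.mem_insert_self _ _))
      (ih fun i hi => hF i (Finset.mem_insert_of_mem hi))

lemma W_conj {σ : ℝ} {E K : Set ℝ} {F : ℝ → ℂ} (hF : W σ E K F) :
    W σ (-E) (-K) (fun ω => conj (F ω)) := by
  obtain ⟨f, c, h1⟩ := hF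
  refine ⟨fun t => conj (f (-t)), fun t => conj (c (-t)), ?_, ?_, ?_, ?_, ?_⟩
  · have h2 : Integrable (fun t => f (-t) * wt σ (-t)) := h1.intg.comp_neg
    have h3 := (Complex.conjCLE : ℂ ≃L[ℝ] ℂ).toContinuousLinearMap.integrable_comp h2
    refine h3.congr (Eventually.of_forall fun t => ?_)
    simp [wt_neg, wt_conj]
  · have h2 := (Equiv.neg ℝ).summable_iff.mpr h1.summ
    refine h2.congr fun t => ?_
    simp
  · intro t ht
    rw [h1.fE (-t) (by simpa using ht), map_zero]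
  · intro t ht
    rw [h1.cK (-t) (by simpa using ht), map_zero]
  · intro ω
    rw [h1.eq, map_add, ← integral_conj, Complex.conj_tsum]
    congr 1
    · rw [← integral_neg_eq_self (fun t => conj (f t * ch ω t))]
      congr 1
      funext t
      rw [map_mul, ch_conj, neg_neg]
    · rw [← (Equiv.neg ℝ).tsum_eq (fun t => conj (c t * ch ω t))]
      congr 1
      funext t
      simp only [Equiv.neg_apply]
      rw [map_mul, ch_conj, neg_neg]

lemma W_const (σ : ℝ) (a : ℂ) : W σ ∅ {0} (fun _ => a) := by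
  refine ⟨fun _ => 0, Pi.single 0 a, ?_, ?_, ?_, ?_, ?_⟩
  · simp
  · apply summable_of_ne_finset_zero (s := {0})
    intro t ht
    rw [Pi.single_eq_of_ne (by simpa using ht)]
    simp
  · intro t _; rfl
  · intro t ht
    exact Pi.single_eq_of_ne (by simpa using ht) _
  · intro ω
    rw [tsum_eq_single 0 (fun t ht => by rw [Pi.single_eq_of_ne ht, zero_mul])]
    simp [ch]

lemma W_mono {σ σ' : ℝ} {E K E' K' : Set ℝ} {F : ℝ → ℂ} (h : σ' ≤ σ) (hE : E ⊆ E') (hK : K ⊆ K')
    (hF : W σ E K F) : W σ' E' K' F := by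
  obtain ⟨f, c, h1⟩ := hF
  exact ⟨f, c, intg_mono h h1.intg, summ_mono h h1.summ, fun t ht => h1.fE t fun h' => ht (hE h'),
    fun t ht => h1.cK t fun h' => ht (hK h'), h1.eq⟩

lemma W_bdd {σ : ℝ} (hσ : 0 < σ) {E K : Set ℝ} {F : ℝ → ℂ} (hF : W σ E K F) :
    ∃ M : ℝ, ∀ ω, ‖F ω‖ ≤ M := by
  obtain ⟨f, c, h1⟩ := hF
  refine ⟨(∫ t, ‖f t‖) + ∑' t, ‖c t‖, fun ω => ?_⟩
  rw [h1.eq]
  have h0 := summ_mono hσ.le h1.summ
  simp only [zero_mul, Real.exp_zero, mul_one] at h0
  refine (norm_add_le _ _).trans (add_le_add ?_ ?_)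
  · refine (norm_integral_le_integral_norm _).trans (le_of_eq ?_)
    congr 1
    funext t
    rw [norm_mul, ch_norm, mul_one]
  · have h2 : ∀ t, ‖c t * ch ω t‖ = ‖c t‖ := fun t => by rw [norm_mul, ch_norm, mul_one]
    refine (norm_tsum_le_tsum_norm ?_).trans (le_of_eq ?_)
    · simpa only [h2] using h0
    · simp only [h2]

theorem taskMat : TaskMat := by
  intro hmul
  refine ⟨?_, ?_, ?_, ?_, ?_, ?_⟩
  · intro n σ E K E' K' F G hσ hF hG i j
    simp only [Matrix.mul_apply]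
    exact W_sum hσ _ (fun k ω => F ω i k * G ω k j) fun k _ =>
      hmul σ E K E' K' _ _ hσ (hF i k) (hG k j)
  · intro n σ E K F hF i j
    simp only [Matrix.conjTranspose_apply]
    exact W_conj (hF j i)
  · intro n σ E K F G hσ hF hG i j
    simp only [Matrix.add_apply]
    exact W_add hσ (hF i j) (hG i j)
  · intro n σ A i j
    exact W_const σ _
  · intro n σ σ' E K E' K' F _ h hE hK hF i j
    exact W_mono h hE hK (hF i j)
  · intro n σ E K F hσ hF
    choose M hM using fun i j => W_bdd hσ (hF i j)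
    refine ⟨∑ i, ∑ j, |M i j|, fun ω i j => ?_⟩
    refine (hM i j ω).trans ((le_abs_self _).trans ?_)
    exact (Finset.single_le_sum (f := fun j => |M i j|) (fun _ _ => abs_nonneg _)
      (Finset.mem_univ j)).trans (Finset.single_le_sum (f := fun i => ∑ j, |M i j|)
        (fun _ _ => Finset.sum_nonneg fun _ _ => abs_nonneg _) (Finset.mem_univ i))

end Pool.Agent.H170.SFMat
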